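import Pool.Agent.Lib.DK.Blue

/-! Project dk: the density bound. -/

open scoped Classical Topology ContDiff ENNReal ComplexOrder Matrix
open Set MeasureTheory Complex Filter

set_option linter.unusedVariables false

noncomputable section

namespace Pool.Agent.Lib.DK

open Pool.Agent.Lib.SV (E)
open Pool.Agent.Lib.HS32 Pool.Agent.Lib.DM

namespace DEN

theorem pt {s s' S δ b a t : ℝ} (hs : 0 ≤ s) (hsS : s ≤ S) (hs' : 0 ≤ s') (hs'S : s' ≤ S)
    (hS : 0 < S) (hδ : 0 < δ) (hb : 0 ≤ b) (ha : a ≤ 0) :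
    Real.exp (b * Real.log (s' + δ)) * Real.exp (-t) * ((1 + t) * (s / S) ^ b + a) ≤
      Real.exp (a + b * Real.log (s + δ)) := by
  have h0 : 0 ≤ s / S := div_nonneg hs hS.le
  have h1 : s / S ≤ 1 := (div_le_one hS).2 hsS
  have p0 : 0 ≤ (s / S) ^ b := Real.rpow_nonneg h0 b
  have p1 : (s / S) ^ b ≤ 1 := Real.rpow_le_one h0 h1 hb
  have e1 : Real.exp (b * Real.log (s' + δ)) = (s' + δ) ^ b := by
    rw [Real.rpow_def_of_pos (by linarith), mul_comm]
  have e2 : Real.exp (b * Real.log (s + δ)) = (s + δ) ^ b := by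
    rw [Real.rpow_def_of_pos (by linarith), mul_comm]
  have h2 : s / S * (s' + δ) ≤ s + δ := by
    have : s / S * s' ≤ s := by
      calc s / S * s' ≤ s / S * S := mul_le_mul_of_nonneg_left hs'S h0
        _ = s := div_mul_cancel₀ s hS.ne'
    nlinarith
  have h3 : (s / S) ^ b * (s' + δ) ^ b ≤ (s + δ) ^ b := by
    rw [← Real.mul_rpow h0 (by linarith)]
    exact Real.rpow_le_rpow (mul_nonneg h0 (by linarith)) h2 hb
  have h4 : Real.exp (-t) * ((1 + t) * (s / S) ^ b + a) ≤ Real.exp a * (s / S) ^ b := by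
    have h5 : a + t + 1 ≤ Real.exp (a + t) := Real.add_one_le_exp _
    have h6 : Real.exp a = Real.exp (-t) * Real.exp (a + t) := by
      rw [← Real.exp_add]; congr 1; ring
    rw [h6, mul_assoc]
    refine mul_le_mul_of_nonneg_left ?_ (Real.exp_pos _).le
    nlinarith [mul_le_mul_of_nonneg_right h5 p0]
  have q0 : 0 ≤ (s' + δ) ^ b := Real.rpow_nonneg (by linarith) b
  rw [Real.exp_add, e1, e2]
  calc (s' + δ) ^ b * Real.exp (-t) * ((1 + t) * (s / S) ^ b + a)
      = (s' + δ) ^ b * (Real.exp (-t) * ((1 + t) * (s / S) ^ b + a)) := by ring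
    _ ≤ (s' + δ) ^ b * (Real.exp a * (s / S) ^ b) := mul_le_mul_of_nonneg_left h4 q0
    _ = Real.exp a * ((s / S) ^ b * (s' + δ) ^ b) := by ring
    _ ≤ Real.exp a * (s + δ) ^ b := mul_le_mul_of_nonneg_left h3 (Real.exp_pos _).le

end DEN

theorem dDEN : St_DEN := by
  intro n M _ H σ C₀ b hH hσ h0 hz hb
  obtain ⟨C, hC, hP, -⟩ := mPSH n M H C₀ hH
  obtain ⟨-, hfin, hop, hpos, hint, -⟩ := mMU n M H hH
  have hx : ∃ x, σ x ≠ 0 := by
    by_contra h
    push Not at h
    have : {x | σ x = 0} = univ := eq_univ_of_forall h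
    rw [this] at hz
    simp [Measure.real, hz] at hpos
  obtain ⟨x₀, hx₀⟩ := hx
  obtain ⟨x₁, -, hx₁⟩ := isCompact_univ.exists_isMaxOn ⟨x₀, mem_univ _⟩ hσ.continuousOn
  have hS : ∀ y, σ y ≤ σ x₁ := fun y => hx₁ (mem_univ y)
  have hp0 : 0 < σ x₀ := lt_of_le_of_ne (h0 x₀) (Ne.symm hx₀)
  have hS0 : 0 < σ x₁ := hp0.trans_le (hS x₀)
  have hφ : Continuous fun y => (σ y / σ x₁) ^ b :=
    (hσ.div_const _).rpow_const fun _ => Or.inr hb
  have hm : 0 < ∫ y, (σ y / σ x₁) ^ b ∂M.mu H :=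
    integral_pos_of_integrable_nonneg_nonzero (x := x₀) hφ (hint ℝ _ hφ)
      (fun y => Real.rpow_nonneg (div_nonneg (h0 y) hS0.le) b)
      (Real.rpow_pos_of_pos (div_pos hp0 hS0) b).ne'
  set m := ∫ y, (σ y / σ x₁) ^ b ∂M.mu H with hmd
  refine ⟨Real.exp (C / m) / m, by positivity, fun δ hδ a ha hL ha0 ha1 x => ?_⟩
  have hac : Continuous a := ((mTR n M).2.2.2.1 ℝ a).1 ha
  have hI := hP a ha hL ha0 ha1
  have hc : Continuous fun y => Real.exp (a y + b * Real.log (σ y + δ)) :=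
    (hac.add (continuous_const.mul ((hσ.add continuous_const).log
      fun y => (add_pos_of_nonneg_of_pos (h0 y) hδ).ne'))).rexp
  have i1 := hint ℝ _ hφ
  have i2 := hint ℝ _ hac
  have hle := integral_mono (((i1.const_mul (1 + C / m)).add i2).const_mul
    (Real.exp (b * Real.log (σ x + δ)) * Real.exp (-(C / m)))) (hint ℝ _ hc)
    fun y => DEN.pt (t := C / m) (h0 y) (hS y) (h0 x) (hS x) hS0 hδ hb (ha0 y)
  simp only [Pi.add_apply] at hle
  rw [integral_const_mul, integral_add (i1.const_mul _) i2, integral_const_mul, ← hmd] at hle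
  have h7 : m ≤ (1 + C / m) * m + ∫ y, a y ∂M.mu H := by
    have : (1 + C / m) * m = m + C := by field_simp
    linarith
  have h8 : Real.exp (b * Real.log (σ x + δ)) * Real.exp (-(C / m)) * m ≤
      ∫ y, Real.exp (a y + b * Real.log (σ y + δ)) ∂M.mu H :=
    (mul_le_mul_of_nonneg_left h7 (by positivity)).trans hle
  have h9 : Real.exp (b * Real.log (σ x + δ)) = Real.exp (C / m) / m *
      (Real.exp (b * Real.log (σ x + δ)) * Real.exp (-(C / m)) * m) := by
    rw [Real.exp_neg]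
    field_simp
  rw [h9]
  exact mul_le_mul_of_nonneg_left h8 (by positivity)

end Pool.Agent.Lib.DK
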