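import Pool.Agent.Lib.DK.Blue
import Pool.Agent.Lib.K3S.B_MS
import Pool.Agent.Lib.ZE.B_KT

/-! Project dk: the family of metrics. -/

open scoped Classical Topology ContDiff ENNReal ComplexOrder Matrix
open Set MeasureTheory Complex Filter

noncomputable section

namespace Pool.Agent.Lib.DK

open Pool.Agent.Lib.HS32 Pool.Agent.Lib.HS32.Mf Pool.Agent.Lib.DM Pool.Agent.Lib.DM.K63

theorem dKX (hSGP : St_SGP) (hDEN : St_DEN) (hKXA : St_KXA) : St_KX := by
  intro n M _ I _ D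
  have hH := D.kae
  have hm := hH.toMet
  have cT := K3S.MS.clo D
  have v0 := K3S.MS.vol D
  obtain ⟨σ, s1, s2, s3⟩ := hSGP n M I D
  obtain ⟨K, K0, hK, -⟩ := (mBD n M _ hm).1 _ D.cβ.toForm
  obtain ⟨K', K1, hK', -⟩ := (mBD n M _ hm).1 _ cT.toForm
  have c1 : (1 : ℝ) ≤ D.c := Nat.one_le_cast.2 D.c0
  have c2 : (D.c : ℝ)⁻¹ ≤ 1 := inv_le_one_of_one_le₀ c1
  have c3 : 0 ≤ (D.c : ℝ)⁻¹ := by positivity
  obtain ⟨C, C0, hC⟩ := hDEN n M D.H σ (K' + 1) _ hm s1.sm.continuous s1.nn s2 c3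
  refine ⟨n + 2, C, by positivity, C0, fun ε₀ ε0 => ?_⟩
  obtain ⟨ε, e0, e1, e2⟩ : ∃ ε : ℝ, 0 < ε ∧ ε ≤ 1 ∧ ε ≤ ε₀ :=
    ⟨min 1 ε₀, lt_min one_pos ε0, min_le_left _ _, min_le_right _ _⟩
  obtain ⟨e, p0, p1⟩ : ∃ e : ℝ, 0 < e ∧ e * K = ε / 4 := ⟨ε / 4 / K, by positivity, by field_simp⟩
  obtain ⟨ψ, B, B0, ψ1, ψ2, ψ3⟩ := D.nef e p0
  change M.Le 0 (D.T + e • D.β + M.hs ψ) at ψ2
  change M.Le (D.T + e • D.β + M.hs ψ) _ at ψ3
  have η0 := mul_pos (pow_pos p0 n) v0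
  obtain ⟨d, d1, d0, d2⟩ := ((s3 (B + e) (by positivity) _ η0).and
    (Ioc_mem_nhdsGT (half_pos e0))).exists
  have pH := fun e he z hz => (hH.pos e he z hz).posSemidef
  have pβ := le0.1 D.nβ
  have cψ := (mHES n M).1 ψ ψ1
  have cG := ((cT.add (D.cβ.smul (2 * e))).add (hH.toClo.smul d)).add cψ
  have l1 : M.Le (e • D.β + d • D.H) (D.T + (2 * e) • D.β + d • D.H + M.hs ψ) :=
    fun a ha z hz => by
      refine (congrArg Matrix.PosSemidef ?_).mp (le0.1 ψ2 a ha z hz)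
      simp only [Pi.add_apply, Pi.smul_apply]
      module
  have l0 : M.Le 0 (e • D.β) := by simpa using D.nβ.smul p0.le
  have l3 : M.Le (e • D.β) (e • D.β + d • D.H) := by
    simpa using (Le.refl (e • D.β)).add (hm.smul d0).nonneg
  have hG : M.Kae (D.T + (2 * e) • D.β + d • D.H + M.hs ψ) :=
    { cG, (hm.smul d0).of_le cG.toForm
      (Le.trans (by simpa using l0.add (Le.refl (d • D.H))) l1) with }
  have cB := (D.cβ.smul (B + e)).add (hH.toClo.smul d)
  have l2 : M.Le (D.T + (2 * e) • D.β + d • D.H + M.hs ψ) ((B + e) • D.β + d • D.H) :=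
    fun a ha z hz => by
      refine (congrArg Matrix.PosSemidef ?_).mp (ψ3 a ha z hz)
      simp only [Pi.add_apply, Pi.smul_apply]
      module
  obtain ⟨r1, r2⟩ := (mHES n M).2.2.2.2.2.2.2.2.2 _ _ hG.toMet hm
  obtain ⟨δ, δ0, u, Q, u1, u2, q1, q2, q3, q4, u3⟩ := hKXA n M _ _ _ σ _ _ _ D.pos hG
    { cB, hG.toMet.of_le cB.toForm l2 with } l2 s1 (ψ1.sub r1) c3 η0 fun a ha z hz => by
      refine (congrArg Matrix.PosSemidef ?_).mp ((psd_rsmul (pβ a ha z hz)
        (show 0 ≤ 2 * e by positivity)).add (psd_rsmul (pH a ha z hz) d0.le))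
      have k1 := r2 a ha z hz
      have k2 := ((mLAP n M _ _ ψ1 r1).1 0 a ha z hz).2.2.1
      have k3 : D.T a z = -M.ric D.H a z -
          (D.c : ℝ)⁻¹ • (∑ k, (D.a k : ℝ) • M.hw (D.φ k)) a z := by
        simp only [K3S.Dk.T, Pi.sub_apply, Pi.neg_apply, Finset.sum_apply, Pi.smul_apply,
          Finset.smul_sum, smul_smul, div_eq_inv_mul]
      beta_reduce at k1
      rw [Pi.sub_apply, Pi.sub_apply, k1, k2]
      simp only [Pi.add_apply, Pi.smul_apply, k3]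
      module
  obtain ⟨y, hy⟩ := (u1.add ψ1).exists_max
  have sa := (u1.add ψ1).add (sm_const (-(u y + ψ y)))
  have ha : M.All fun a z => M.hs (fun x => u x + ψ x + -(u y + ψ y)) a z =
      M.hs u a z + M.hs ψ a z := fun a ha z hz =>
    (hs_add_const (u1.add ψ1) _ a ha z hz).trans ((mLAP n M _ _ u1 ψ1).1 0 a ha z hz).2.1
  have l4 : ∀ s, ε ≤ s → M.Le (D.T + (2 * e) • D.β + d • D.H + M.hs ψ + M.hs u)
      (D.T + s • D.H + M.hs fun x => u x + ψ x + -(u y + ψ y)) := fun s hs a h z hz => by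
    refine (congrArg Matrix.PosSemidef ?_).mp ((psd_rsmul (hK a h z hz)
      (show 0 ≤ 2 * e by positivity)).add (psd_rsmul (pH a h z hz)
      (show 0 ≤ s - d - 2 * e * K by linarith)))
    simp only [Pi.add_apply, Pi.smul_apply, ha a h z hz]
    module
  have vl := ((mMU n M _ hm).2.2.2.2.2.2 _ u2.toMet).2.1 fun _ => 1
  simp only [integral_const, smul_eq_mul, mul_one] at vl
  have dq1 : ∀ x, M.dq D.H (D.T + (2 * e) • D.β + d • D.H + M.hs ψ + M.hs u) x =
      Real.exp (u y + ψ y) * Real.exp (u x + ψ x + -(u y + ψ y) +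
        (D.c : ℝ)⁻¹ * Real.log (σ x + δ)) := fun x => by
    obtain ⟨k1, -, k2, -⟩ := (mINV n M _ hm).2.2.2.2.2.2.2 _ hG.toMet
    rw [k2 _ u2.toForm x, u3 x, ← Real.exp_add, ← Real.exp_log (k1 x), ← Real.exp_add,
      Real.exp_log (k1 x)]
    exact congrArg Real.exp (by ring)
  refine ⟨_, Q, _, u2, q1, q2, q3, ?_, sa, fun x => by linarith [hy x], l4 _ e2, fun x => ?_⟩
  · have v1 : e ^ n * ∫ x, M.dq D.H D.β x ∂M.mu D.H ≤
        (M.mu (D.T + (2 * e) • D.β + d • D.H + M.hs ψ + M.hs u)).real univ := by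
      rw [← integral_const_mul, vol hG u1 u2.toMet]
      have v2 := ((mMU n M _ hm).2.2.2.2.2.2 _ hG.toMet).2.1 fun _ => 1
      simp only [integral_const, smul_eq_mul, mul_one] at v2
      rw [v2]
      exact integral_mono (int hm (continuous_const.mul (dq_c hm D.cβ.toTen)))
        (int hm (dq_c hm hG.toTen)) fun x => by
          simpa only [dq_smul] using ZE.KT.dq_le hm l0 hG.toMet (l3.trans l1) x
    nlinarith [mul_le_mul_of_nonneg_left d1 c3, mul_le_of_le_one_left η0.le c2]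
  · have k := hC δ δ0 _ sa (u2.toMet.nonneg.trans ((l4 1 e1).trans fun a h z hz => by
      refine (congrArg Matrix.PosSemidef ?_).mp (hK' a h z hz)
      simp only [Pi.add_apply, Pi.smul_apply]
      module)) (fun x => by linarith [hy x]) ⟨y, add_neg_cancel _⟩ x
    rw [vl]
    simp only [dq1]
    rw [integral_const_mul, Real.exp_add (_ + _), mul_comm (Real.exp (_ + -_)), ← mul_assoc,
      mul_left_comm C]
    exact mul_le_mul_of_nonneg_right (mul_le_mul_of_nonneg_left k (Real.exp_pos _).le)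
      (Real.exp_pos _).le

end Pool.Agent.Lib.DK
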