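import Pool.Agent.Lib.DK.Blue

/-! Project dk, row KXA: the metrics of Aubin with the equation. -/

open scoped Classical Topology ContDiff ENNReal ComplexOrder Matrix
open Set MeasureTheory Complex Metric Filter

noncomputable section

namespace Pool.Agent.Lib.DK

open Pool.Agent.Lib.HS32 Pool.Agent.Lib.DM Pool.Agent.Lib.DM.K63

theorem dKXA (hA : HS.St_AUBIN) : St_KXA := by
  intro n M _ G B Θ σ F a η hn hG hB hl h hF a0 η0 hr
  obtain ⟨C, C0, h1, h2⟩ := (mBD n M B hB.toMet).1 Θ h.clo.toForm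
  obtain ⟨δ, hδ, u, u1, u2, u3, u4⟩ := mae hA hn hB hG h.sm h.nn h.ne hF a0 C0.le
    (h.low hB.toMet C0.le h1) (η := η / (a * C + 1)) (by positivity)
  have fl := (mHES n M).1 _ (h.lsm hδ)
  have f := (fl.toForm.add h.clo.toForm).add ((hB.toForm.smul C).fsmul (h.lam hδ))
  have q := h.qq hδ h2
  refine ⟨δ, hδ, u, _, u1, u2, u2.toForm.add (f.smul a), ?_, le0.2 fun e he z hz => ?_, ?_, u3⟩
  · simpa using u2.toMet.nonneg.add (q.smul a0)
  · have r := ((mHES n M).2.2.2.2.2.2.2.2.2 _ G u2.toMet hG.toMet).2 e he z hz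
    simp only [u3, Real.log_exp] at r
    have s1 := h.lsm hδ
    have s2 := s1.const_mul a
    have e1 := ((mLAP n M _ _ u1 (hF.add s2)).1 0 e he z hz).2.1
    have e2 := ((mLAP n M _ _ hF s2).1 0 e he z hz).2.1
    have e3 := ((mLAP n M _ _ s1 s1).1 a e he z hz).2.2.2.1
    have k := (hr e he z hz).add (Mf.psd_rsmul (Mf.psd_rsmul (Mf.psd_rsmul
      (hB.pos e he z hz).posSemidef C0.le) (h.lam01 hδ (e.symm z)).1) a0)
    refine (congrArg Matrix.PosSemidef ?_).mp k
    simp only [Pi.add_apply, Pi.sub_apply, Pi.smul_apply, r, e1, e2, e3, smul_add]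
    abel
  · have := (mMU n M _ u2.toMet).2.1
    simp only [Mf.tr_add (S := G + M.hs u), Mf.tr_smul a, u2.toMet.tr_self]
    rw [integral_add (integrable_const _) ((int u2.toMet (tr_c u2.toMet f.toTen)).const_mul a),
      integral_const_mul, h.qint u2 hB.toForm hδ, mix hG u1 u2.toMet h.clo, integral_const,
      smul_eq_mul]
    have k := (le_div_iff₀ (by positivity)).1 u4
    have k2 : 0 ≤ ∫ x, δ / (σ x + δ) * M.tr (G + M.hs u) B x ∂M.mu (G + M.hs u) :=
      integral_nonneg fun x => mul_nonneg (h.lam01 hδ x).1 (u2.toMet.tr_nonneg hB.toMet.nonneg x)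
    nlinarith [mul_le_mul_of_nonneg_left (h.deg_le hG hB hl) a0]

end Pool.Agent.Lib.DK
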