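import Pool.Agent.Lib.DK.Blue
import Pool.Agent.Lib.NV5.X_MV
import Pool.Agent.Lib.NV5.D_PRK
import Pool.Agent.Lib.NV5.D_DET
import Pool.Agent.Lib.NV5.D_LOG

/-! Project dk, row MVU: the potential of a pencil with an explicit constant. -/

open scoped Classical Topology ContDiff ENNReal ComplexOrder Matrix
open Set MeasureTheory Complex Filter

noncomputable section

namespace Pool.Agent.Lib.DK

open Pool.Agent.Lib.HS32 Pool.Agent.Lib.HS32.Mf Pool.Agent.Lib.DM

theorem MVU.bd {Y : Type} [TopologicalSpace Y] {K : Set Y} (hK : IsCompact K) {f : Y → ℝ}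
    (hf : ContinuousOn f K) : ∃ s ∈ Ioc (0 : ℝ) 1, ∀ x ∈ K, s * f x ≤ 1 := by
  obtain ⟨B, hB⟩ := hK.exists_bound_of_continuousOn hf
  have p : 0 < |B| + 1 := by positivity
  refine ⟨(|B| + 1)⁻¹, ⟨inv_pos.2 p, inv_le_one_of_one_le₀ (by linarith [abs_nonneg B])⟩,
    fun x hx => ?_⟩
  rw [inv_mul_le_iff₀ p]
  linarith [(le_abs_self _).trans (hB x hx), le_abs_self B]

open MV XK in
theorem dMVU (hVOL : St_VOL) (hMAX : St_MAX) : St_MVU := by
  intro n M _ G l l' C δ L V W p a hn hG hP C0 l0 δ0 pc p0 hp l1 pI hl ca a0 L0 sA K hK hKV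
  obtain ⟨-, hfin, -, hpos, hint, -⟩ := mMU n M G hG.toMet
  have pk := dPRK dDET dLOG n M G l C V W hG.toMet hP
  have cV := hP.sV.continuous
  have cW := hP.sW.continuous
  have pV : ∀ {x}, V x ≠ 0 → 0 < V x := fun h => (hP.nV _).lt_of_ne' h
  have ae : ∀ᵐ x ∂M.mu G, V x ≠ 0 := by simpa only [ae_iff, not_not] using hP.nul
  obtain ⟨B, hB⟩ := isCompact_univ.exists_bound_of_continuousOn ca.continuousOn
  obtain ⟨b, b0, hb⟩ := hP.sV.exists_bound
  have lB : 0 ≤ Real.log (b + 1) := Real.log_nonneg (by linarith)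
  obtain ⟨s, hs, s1⟩ := MVU.bd hK (f := fun x => δ * (W x / V x))
    (continuousOn_const.mul (cW.continuousOn.div cV.continuousOn hKV))
  obtain ⟨r, hr, r1⟩ := MVU.bd hK (f := fun x => Real.log (b + 1) - Real.log (V x))
    (continuousOn_const.sub (cV.continuousOn.log hKV))
  obtain ⟨η, η0, hη⟩ : ∃ η : ℝ, 0 < η ∧ η * (C + 1) = r :=
    ⟨r / (C + 1), div_pos hr.1 (by linarith), div_mul_cancel₀ _ (by linarith)⟩
  have hC : η * C ≤ 1 := by linarith [hr.2]
  have lV : ∀ x, V x ≠ 0 → Real.log (V x) ≤ Real.log (b + 1) := fun x h =>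
    Real.log_le_log (pV h) (by linarith [(le_abs_self _).trans (hb x)])
  have sU : M.Sm fun y => V y + s * W y := hP.sV.add (hP.sW.const_mul s)
  have lU : ∀ x, V x ≤ V x + s * W x := fun x =>
    le_add_of_nonneg_right (mul_nonneg hs.1.le (hP.nW x))
  obtain ⟨B₁, B1, hB₁⟩ := (num_sm hG.toMet sU).exists_bound
  obtain ⟨t, t1, t2⟩ : ∃ t, 8 * 2 ^ n ≤ t ∧ 3 / η ≤ t :=
    ⟨max _ _, le_max_left _ _, le_max_right _ _⟩
  have t0 : 0 < t := (div_pos three_pos η0).trans_le t2
  rw [div_le_iff₀ η0] at t2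
  obtain ⟨ζ, ζ0, hζ⟩ : ∃ ζ : ℝ, 0 < ζ ∧ ζ = Real.exp (-(t * B)) * (1 / 8) :=
    ⟨_, by positivity, rfl⟩
  have lo : ∀ x, V x ≠ 0 → δ * Real.log s - η * Real.log (V x) ≤ bar V W δ s η x := fun x h =>
    sub_le_sub_right (mul_le_mul_of_nonneg_left (bar_lo (pV h) (hP.nW x) hs).1 δ0) _
  obtain ⟨u, u1, u2, u3⟩ := hMAX n M G V (bar V W δ s η)
    (fun x => 2 ^ n * (1 + δ * bb M G V W s x)) t ζ hn hG t0 ζ0 cV hP.nV
    (fun e he z hz h => by
      have a := hP.sV e he z hz
      have b := hP.sW e he z hz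
      have c := ((pV h).trans_le (lU _)).ne'
      exact ⟨(contDiffAt_const.mul (((sU e he z hz).log c).sub ((a.add b).log
        (add_pos_of_pos_of_nonneg (pV h) (hP.nW _)).ne'))).sub (contDiffAt_const.mul (a.log h)),
        contDiffAt_const.mul (contDiffAt_const.add (contDiffAt_const.mul
          ((ll_sm hG.toMet sU e he z hz c).sub (ll_sm hG.toMet hP.sV e he z hz h))))⟩)
    (fun x h => ⟨by have := (pk x h s hs.1.le).2.1; positivity,
      (pk x h s hs.1.le).2.2 δ η δ0 η0.le hC⟩)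
    (fun R => ⟨Real.exp ((δ * Real.log s - R) / η), Real.exp_pos _, fun x h h' => by
      have := (Real.log_le_iff_le_exp (pV h)).2 h'
      rw [le_div_iff₀ η0] at this
      linarith [lo x h]⟩)
    (by
      obtain ⟨K, K0, hK⟩ : ∃ K : ℝ, 0 < K ∧ K = Real.exp (-(t * (δ * Real.log s))) *
        (2 ^ n * (1 + δ * (B₁ + l))) := ⟨_, by positivity, rfl⟩
      refine ⟨min 1 (ζ / K), by positivity, fun x h h' => ?_⟩
      have p := pV h
      have v1 := h'.trans (min_le_left _ _)
      have v2 := (le_div_iff₀ K0).1 (h'.trans (min_le_right _ _))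
      have a1 : Real.exp (-(t * bar V W δ s η x)) ≤
          Real.exp (-(t * (δ * Real.log s))) * V x ^ 3 := by
        rw [← Real.exp_log (pow_pos p 3), ← Real.exp_add, Real.exp_le_exp, Real.log_pow]
        have := Real.log_nonpos p.le v1
        have := mul_le_mul_of_nonneg_left (lo x h) t0.le
        push_cast
        nlinarith
      have a2 : bb M G V W s x * V x ^ 2 ≤ B₁ + l := by
        have b1 : ll M G (fun y => V y + s * W y) x ≤ B₁ / V x ^ 2 :=
          (div_le_div_of_nonneg_right ((le_abs_self _).trans (hB₁ x)) (sq_nonneg _)).trans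
            (div_le_div_of_nonneg_left B1.le (pow_pos p 2) (pow_le_pow_left₀ p.le (lU x) 2))
        have b2 := (pk x h s hs.1.le).1
        have b3 : V x ^ 2 ≤ 1 := pow_le_one₀ p.le v1
        rw [le_div_iff₀ (pow_pos p 2)] at b1
        rw [bb, sub_mul]
        nlinarith [mul_le_mul_of_nonneg_right b2 (sq_nonneg (V x))]
      have a3 : V x ^ 2 * (1 + δ * bb M G V W s x) ≤ 1 + δ * (B₁ + l) := by
        nlinarith [mul_le_mul_of_nonneg_left a2 δ0, pow_le_one₀ (n := 2) p.le v1]
      have a4 := (pk x h s hs.1.le).2.1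
      calc _ ≤ Real.exp (-(t * (δ * Real.log s))) * V x ^ 3 *
            (2 ^ n * (1 + δ * bb M G V W s x)) := by gcongr
        _ = V x * (Real.exp (-(t * (δ * Real.log s))) *
            (2 ^ n * (V x ^ 2 * (1 + δ * bb M G V W s x)))) := by ring
        _ ≤ V x * K := by rw [hK]; gcongr
        _ ≤ _ := v2)
  obtain ⟨m1, m3⟩ := slp hG pc p0 sU hP.sV (fun x => ⟨hP.nV x, lU x⟩) hP.nul
    fun x h => ⟨hp x h, sub_nonneg.1 (pk x h s hs.1.le).2.1⟩
  have m2 := m3.trans (ENNReal.ofReal_le_ofReal pI)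
  rw [ENNReal.ofReal_mul l1, ofReal_measureReal] at m2
  set c := η * Real.log (b + 1) with hc
  have c0 : 0 ≤ c := mul_nonneg η0.le lB
  obtain ⟨y, hy⟩ := hVOL M.X (M.mu G)
    (fun x => δ * (Real.log (V x + W x) - Real.log (V x)) - a x) (2 ^ n) L
    (fun h => by simp [h] at hpos) (((((cV.add cW).measurable.log).sub
      cV.measurable.log).const_mul δ).sub ca.measurable) (by positivity) L0 sA
    (fun x => u x + (c + a x)) (fun x => bar V W δ s η x + (c + a x)) (bb M G V W s)
    (M.dq G (G + M.hs u)) δ t t1 m1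
    (ae.mono fun x h => by
      have a5 := mul_le_mul_of_nonneg_left (bar_lo (pV h) (hP.nW x) hs).2 δ0
      have a6 := mul_le_mul_of_nonneg_left (lV x h) η0.le
      refine ⟨mul_nonneg δ0 (pk x h s hs.1.le).2.1, by linarith [(u3 x h).1],
        by rw [bar]; linarith, (u3 x h).2.trans ?_⟩
      rw [hζ, mul_add, mul_add (Real.exp _), ← mul_assoc, ← mul_assoc (Real.exp _),
        ← mul_assoc (Real.exp (t * (u x + _))), ← Real.exp_add, ← Real.exp_add, ← Real.exp_add]
      refine add_le_add (le_of_eq ?_) (mul_le_mul_of_nonneg_right (Real.exp_le_exp.2 ?_)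
        (by norm_num))
      · rw [show t * (u x + (c + a x)) + -(t * (bar V W δ s η x + (c + a x))) =
          t * u x + -(t * bar V W δ s η x) by ring]
      · nlinarith [(neg_le_abs _).trans (hB x (mem_univ x))])
    (by
      have e : ∀ x, ENNReal.ofReal (2 ^ n * (δ * bb M G V W s x)) =
          ENNReal.ofReal (2 ^ n * δ) * ENNReal.ofReal (bb M G V W s x) := fun x => by
        rw [← mul_assoc, ENNReal.ofReal_mul (by positivity)]
      simp only [e]
      rw [lintegral_const_mul' _ _ ENNReal.ofReal_ne_top]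
      refine (mul_le_mul_right m2 _).trans ?_
      rw [← mul_assoc, ← ENNReal.ofReal_mul (by positivity), div_eq_mul_inv, mul_comm (M.mu G univ)]
      refine mul_le_mul_left ?_ _
      rw [show (4 : ℝ≥0∞)⁻¹ = ENNReal.ofReal (1 / 4) by
        rw [one_div, ENNReal.ofReal_inv_of_pos four_pos, ENNReal.ofReal_ofNat]]
      refine ENNReal.ofReal_le_ofReal ?_
      rw [pow_add] at hl
      linarith)
    (by
      have h1 := mCOH n M G G u hG.toMet hG.toClo u1
      have h2 := ((mINV n M G hG.toMet).1 _ u2.toTen).2.2.2.1.continuous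
      simp only [hG.toMet.dq_self, integral_const, smul_eq_mul, mul_one] at h1
      rw [← ofReal_integral_eq_lintegral_ofReal (hint ℝ _ h2) (.of_forall fun x =>
        (((mINV n M G hG.toMet).2.2.2.2.2.2.2 _ u2.toMet).1 x).le), h1, ofReal_measureReal])
  refine ⟨fun x => u x + c, u1.add (sm_const _), u2.congr fun e he z hz => ?_,
    ⟨y, by linarith⟩, fun x hx => ?_⟩
  · obtain ⟨a, b, -⟩ := (mLAP n M u (fun _ => c) u1 (sm_const _)).1 c e he z hz
    simp only [Pi.add_apply]
    rw [b, a, add_zero]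
  · have h := hKV x hx
    have k1 := (u3 x h).1
    have k2 := Real.log_le_sub_one_of_pos (div_pos ((pV h).trans_le (lU x)) (pV h))
    rw [Real.log_div ((pV h).trans_le (lU x)).ne' h, add_div, div_self h, mul_div_assoc] at k2
    have k3 := mul_le_mul_of_nonneg_left k2 δ0
    have k4 := mul_nonneg (mul_nonneg η0.le C0.le) (sub_nonneg.2 (lV x h))
    have k5 := r1 x hx
    rw [bar] at k1
    rw [← hη] at k5
    linarith [s1 x hx]

end Pool.Agent.Lib.DK
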