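import Pool.Agent.Lib.DK.Blue
import Pool.Agent.Lib.GH76.Pshp

/-! Project dk: domination of one quotient. -/

open scoped Classical Topology ContDiff ENNReal ComplexOrder Matrix
open Set MeasureTheory Complex Filter

noncomputable section

namespace Pool.Agent.Lib.DK

open Pool.Agent.Lib.HS32 Pool.Agent.Lib.HS32.Mf Pool.Agent.Lib.DM Pool.Agent.Lib.DM.K63

theorem dONE (hMVU : St_MVU) (hSML : St_SML) : St_ONE := by
  rintro n M _ H T O g hn hH hT ⟨k, C, k0, C0, hK⟩ ⟨B, B0, hB⟩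
  have hm := hH.toMet
  have fin := (mMU n M H hm).2.1
  obtain ⟨K', K1, hK', -⟩ := (mBD n M _ hm).1 _ hT
  obtain ⟨α, A, α0, -, hA⟩ := GH76.skoda M (K' + 1) hm
  obtain ⟨δ, δ0, δ1⟩ : ∃ δ : ℝ, 0 < δ ∧ 2 ^ (n + 2) * δ * (B * k) ≤ 1 :=
    ⟨1 / (2 ^ (n + 2) * (B * k + 1)), by positivity, by
      rw [mul_one_div, div_mul_eq_mul_div, div_le_one (by positivity)]
      exact mul_le_mul_of_nonneg_left (by linarith) (by positivity)⟩
  have lg : ∀ {V W : M.X → ℝ}, (∀ x, V x ≠ 0 ↔ x ∈ O) → (∀ x ∈ O, W x = V x * normSq (g x)) →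
      ∀ x ∈ O, Real.log (V x + W x) - Real.log (V x) = Real.log (1 + normSq (g x)) :=
    fun h1 h2 x hx => by
      rw [h2 x hx, ← mul_one_add, Real.log_mul ((h1 x).2 hx)
        (add_pos_of_pos_of_nonneg one_pos (normSq_nonneg _)).ne', add_sub_cancel_left]
  obtain ⟨G₁, Q₁, _, g1, g2, g3, g4, -⟩ := hK 1 one_pos
  obtain ⟨V₁, W₁, _, _, -, -, P₁, o₁, w₁, -⟩ := hB G₁ Q₁ g1 g2 g3 g4
  have mq : Measurable fun x => δ * (Real.log (V₁ x + W₁ x) - Real.log (V₁ x)) :=
    (((P₁.sV.add P₁.sW).continuous.measurable.log).sub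
      P₁.sV.continuous.measurable.log).const_mul δ
  obtain ⟨L, L0, hL⟩ := hSML M.X (M.mu H) _ C (1 / (8 * (2 ^ n + 1))) mq C0 (by positivity)
  refine ⟨δ, α, max A (L + 3), δ0, α0, fun ε₀ ε0 K hc hO => ?_⟩
  obtain ⟨G, Q, a, a1, a2, a3, a4, a5, a6, a7, a8, a9⟩ := hK (min 1 ε₀) (lt_min one_pos ε0)
  obtain ⟨V, W, C', l, b1, b2, P, o, w, b3⟩ := hB G Q a1 a2 a3 a4
  have tc := tr_c a1.toMet a2.toTen
  have mS : MeasurableSet {x | L < δ * (Real.log (V₁ x + W₁ x) - Real.log (V₁ x)) - a x} :=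
    measurableSet_lt measurable_const (mq.sub a6.continuous.measurable)
  obtain ⟨u, u1, u2, ⟨x₀, u3⟩, u4⟩ := hMVU n M G l (B * k) C' δ L V W (fun x => B * M.tr G Q x) a
    hn a1 P b1 b2 δ0.le (continuous_const.mul tc)
    (fun x => mul_nonneg B0 (a1.toMet.tr_nonneg a3 x)) b3 (by positivity)
    (by rw [integral_const_mul, mul_assoc]; exact mul_le_mul_of_nonneg_left a5 B0) δ1
    a6.continuous a7 L0 (by
      have ae : ∀ᵐ x ∂M.mu G, V x ≠ 0 := by simpa only [ae_iff, not_not] using P.nul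
      rw [measureReal_congr (t := {x | L < δ * (Real.log (V₁ x + W₁ x) - Real.log (V₁ x)) - a x})
        (ae.mono fun x hx => by
          change (_ < _) = (_ < _)
          rw [lg o w x ((o x).1 hx), lg o₁ w₁ x ((o x).1 hx)]),
        ← integral_indicator_one mS, ((mMU n M H hm).2.2.2.2.2.2 G a1.toMet).2.1]
      have k := mul_le_mul_of_nonneg_left (hL a a6.continuous.measurable a7)
        (measureReal_nonneg (μ := M.mu G) (s := univ))
      rw [mul_one_div, ← mul_assoc, mul_comm _ C, ← integral_const_mul,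
        ← integral_indicator mS] at k
      refine le_trans (integral_mono_of_nonneg (ae_of_all _ fun x => mul_nonneg
        (((mINV n M H hm).2.2.2.2.2.2.2 G a1.toMet).1 x).le
        (indicator_nonneg (fun _ _ => zero_le_one) x)) ((int hm (continuous_const.mul
        (Real.continuous_exp.comp a6.continuous))).indicator mS) (ae_of_all _ fun x => ?_)) k
      by_cases hx : x ∈ {x | L < δ * (Real.log (V₁ x + W₁ x) - Real.log (V₁ x)) - a x}
      · simp only [indicator_of_mem hx, Pi.one_apply, mul_one]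
        exact a9 x
      · simp only [indicator_of_notMem hx, mul_zero, le_refl])
    K hc fun x hx => (o x).2 (hO hx)
  obtain ⟨y, hy⟩ := (u1.add a6).exists_max
  have sa := (u1.add a6).add (sm_const (-(u y + a y)))
  have l4 : ∀ (S : M.Fam (Mat n)), M.Le (T + min 1 ε₀ • H) S →
      M.Le 0 (S + M.hs fun x => u x + a x + -(u y + a y)) := fun S hS =>
    u2.toMet.nonneg.trans fun e he z hz => by
      refine (congrArg Matrix.PosSemidef ?_).mp ((a8 e he z hz).add (hS e he z hz))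
      simp only [Pi.add_apply, Pi.smul_apply, hs_add_const (u1.add a6) _ e he z hz,
        ((mLAP n M _ _ u1 a6).1 0 e he z hz).2.1]
      module
  have n0 : ∀ x, u x + a x + -(u y + a y) ≤ 0 := fun x => by linarith [hy x]
  refine ⟨_, sa, l4 _ ((Le.refl T).add (hm.le_smul (min_le_right _ _))), n0,
    (hA _ sa (l4 _ ?_) n0 ⟨y, add_neg_cancel _⟩).trans (le_max_left _ _), fun x hx => ?_⟩
  · rw [add_smul]
    exact hK'.add (hm.le_smul (min_le_left _ _))
  · have := u4 x hx
    rw [lg o w x (hO hx)] at this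
    exact le_max_of_le_right (by linarith [hy x₀, a7 x])

end Pool.Agent.Lib.DK
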