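import Pool.Agent.Lib.DK.Blue
import Pool.Agent.Lib.NV5.X_MV
import Pool.Agent.Lib.NV5.D_NRM
import Pool.Agent.Lib.NV5.D_PRK
import Pool.Agent.Lib.NV5.D_LOG
import Pool.Agent.Lib.SV.B_ZER
import Pool.Agent.Lib.SV.B_SUB

/-! Project dk, row PAI: the norms of two proportional tensors. -/

open scoped Classical Topology ContDiff ENNReal ComplexOrder Matrix
open Set MeasureTheory Complex Metric Filter

noncomputable section

namespace Pool.Agent.Lib.DK

open Pool.Agent.Lib.SV (E)
open Pool.Agent.Lib.HS32 Pool.Agent.Lib.DM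
open Pool.Agent.Lib.RAA (kp hl)

namespace PAI

variable {n : ℕ} {M : Mf n} {G : M.Fam (Mat n)} {N B : ℕ} {s : M.Fam ((Fin N → Fin n) → ℂ)}

theorem hn (h : HLK.Hol s) : M.All fun e z => HolN (s e) z := fun e he z hz =>
  (eventually_all.2 (h e he z hz)).mono fun _ hw => differentiableAt_pi.2 hw

theorem near (hG : M.Met G) : M.All fun e z => ∀ᶠ w in 𝓝 z, SmM (G e) w ∧ (G e w).PosDef :=
  fun e he _ hz => (e.open_target.eventually_mem hz).mono fun w hw =>
    ⟨hG.sm e he w hw, hG.pos e he w hw⟩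

theorem nrm (hG : M.Met G) (h : HLK.Hol s) (hc : M.Ov fun e e' x =>
    s e (e x) = ((M.J e e' x).det ^ B)⁻¹ • kp N (M.J e e' x) *ᵥ s e' (e' x)) :
    ∃ V, M.Sm V ∧ M.All fun e z => V (e.symm z) = uv N B (G e) (s e) z := by
  have r := (mTR n M).2.2.2.2.1 ℝ (fun e => uv N B (G e) (s e)) fun e he e' he' x hx hx' => by
    have d := ((mTR n M).2.1 e he e' he' x hx hx').2.1
    exact NRM.uv_eq N B _ _ _ _ _ _ _ d (hG.cmp e he e' he' x hx hx')
      (by rw [hc e he e' he' x hx hx', smul_inv_smul₀ (pow_ne_zero _ d)])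
  exact ⟨M.ev _, fun e he z hz => ((dCRV n N B).1 _ _ z (near hG e he z hz)
    (hn h e he z hz)).1.congr_of_eventuallyEq
      ((e.open_target.eventually_mem hz).mono fun w hw => r e he w hw), r⟩

theorem nul [M.Cpt] (hG : M.Met G) {Z : Set M.X} (hZ : MeasurableSet Z)
    (h : M.All fun e z => ∃ f : E n → ℂ, DifferentiableOn ℂ f e.target ∧ (∃ᶠ w in 𝓝 z, f w ≠ 0) ∧
      ∀ w ∈ e.target, e.symm w ∈ Z → f w = 0) : M.mu G Z = 0 := by
  have := (mCOV n M).1
  refine measure_null_of_locally_null _ fun x _ => ?_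
  obtain ⟨e, he, hx⟩ := M.cov x
  have hz := e.map_source hx
  obtain ⟨f, f1, f2, f3⟩ := h e he _ hz
  obtain ⟨r, r0, hr⟩ := Metric.isOpen_iff.1 e.open_target _ hz
  obtain ⟨w, w1, w2⟩ := (f2.and_eventually (ball_mem_nhds _ r0)).exists
  obtain ⟨m, k, -⟩ := (mMU n M G hG).2.2.2.2.2.1 e he _ measurableSet_ball hr
  refine ⟨Z ∩ e.symm '' ball (e x) r, inter_mem_nhdsWithin _ ?_, ?_⟩
  · have := e.symm.image_mem_nhds hz (ball_mem_nhds _ r0)
    rwa [e.left_inv hx] at this
  rw [← Measure.restrict_apply hZ, ← lintegral_indicator_one hZ, k]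
  refine lintegral_eq_zero_of_ae_eq_zero ((ae_restrict_iff' measurableSet_ball).2 ?_)
  refine measure_mono_null (fun y hy => ?_) (SV.stZER SV.stSUB n f _ r (f1.mono hr) ⟨w, w2, w1⟩)
  obtain ⟨a, b⟩ := Classical.not_imp.1 hy
  exact ⟨a, f3 y (hr a) (by_contra fun c => b (by simp [indicator_of_notMem c]))⟩

end PAI

open PAI in
theorem dPAI (hID : K3E.St_ID) : St_PAI := by
  intro n M _ N B s t O g hNB hs ht hc hO
  refine ⟨B, B.cast_nonneg, fun G Q hG hQ Q0 hL => ?_⟩
  obtain ⟨hv, hC⟩ := dCRV n N B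
  obtain ⟨r1, r2, -⟩ := (mINV n M G hG.toMet).1 Q hQ.toTen
  obtain ⟨K, K0, hK⟩ := r2.exists_bound
  obtain ⟨C, C0, hC⟩ := hC M G hG.toMet
  obtain ⟨V, sV, eV⟩ := nrm hG.toMet hs.hol hs.cmp
  obtain ⟨W, sW, eW⟩ := nrm hG.toMet ht hc
  have k₁ := fun e he z hz => hv _ (t e) z (near hG.toMet e he z hz) (hn ht e he z hz)
  have k₂ := fun e he z hz => hv _ (s e) z (near hG.toMet e he z hz) (hn hs.hol e he z hz)
  have pt : ∀ {p : M.X → Prop}, (M.All fun e z => p (e.symm z)) → ∀ x, p x := fun h x => by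
    obtain ⟨e, he, hx⟩ := M.cov x
    exact e.left_inv hx ▸ h e he _ (e.map_source hx)
  have vs : M.All fun e z => V (e.symm z) ≠ 0 ↔ s e z ≠ 0 := fun e he z hz => by
    beta_reduce
    rw [eV e he z hz]
    exact (k₂ e he z hz).2.2.1.not
  have wv : M.All fun e z => s e z ≠ 0 → W (e.symm z) = V (e.symm z) * normSq (g (e.symm z)) :=
    fun e he z hz h => by
      rw [eV e he z hz, eW e he z hz]
      unfold uv
      rw [(hO e he z hz).2 h, NRM.hq_smul]
      ring
  have V0 : ∀ x, 0 ≤ V x := pt fun e he z hz => (k₂ e he z hz).2.1.trans_eq (eV e he z hz).symm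
  have eh : M.All fun e z => hl (V ∘ e.symm) z = hl (uv N B (G e) (s e)) z := fun e he z hz => by
    unfold hl
    refine Pool.Agent.Lib.HS32.hess_congr ?_
    filter_upwards [e.open_target.eventually_mem hz] with w hw
    rw [← eV e he w hw]
    rfl
  have lo : M.All fun e z => s e z ≠ 0 → -(B * M.tr G Q (e.symm z)) ≤
      trm (G e z) (hl (V ∘ e.symm) z) := fun e he z hz s0 => by
    rw [eh e he z hz, r1 e he z hz]
    refine XK.trace (near hG.toMet e he z hz) (hn hs.hol e he z hz) hNB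
      ((e.open_target.eventually_mem hz).mono fun w hw => hG.cl e he w hw)
      (by simpa using Q0 e he z hz) ?_ s0
    simpa [Mf.ric, sub_eq_add_neg] using hL e he z hz
  refine ⟨V, W, C, B * K, C0, by positivity, ⟨sV, sW, V0,
    pt fun e he z hz => (k₁ e he z hz).2.1.trans_eq (eW e he z hz).symm, ?_, fun x hx => ?_⟩,
    pt fun e he z hz => (vs e he z hz).trans (hO e he z hz).1.symm,
    pt (p := fun x => x ∈ O → _) fun e he z hz h => wv e he z hz ((hO e he z hz).1.1 h),
    fun x hx => ?_⟩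
  · refine nul hG.toMet (isClosed_eq sV.continuous continuous_const).measurableSet
      fun e he z hz => ?_
    obtain ⟨i, hi⟩ := hID n M _ _ _ _ hs e he z hz
    exact ⟨_, fun w hw => (hs.hol e he w hw i).self_of_nhds.differentiableWithinAt, hi,
      fun w hw h => congrFun (by_contra fun k => (vs e he w hw).2 k h : s e w = 0) i⟩
  · obtain ⟨e, he, hs'⟩ := M.cov x
    have hz := e.map_source hs'
    have s0 : s e (e x) ≠ 0 := (vs e he _ hz).1 (by rwa [e.left_inv hs'])
    obtain ⟨i, hi⟩ := Function.ne_iff.1 s0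
    have ev := (hs.hol e he _ hz i).self_of_nhds.continuousAt.eventually_ne hi
    refine ⟨e, he, hs', fun w => t e w i / s e w i, ?_, ?_, ?_, ?_⟩
    · filter_upwards [ht e he _ hz i, hs.hol e he _ hz i, ev] with w a b c
      simp only [div_eq_mul_inv]
      exact a.fun_mul (b.fun_inv c)
    · filter_upwards [e.open_target.eventually_mem hz, ev] with w a b
      have c : s e w ≠ 0 := Function.ne_iff.2 ⟨i, b⟩
      rw [wv e he w a c, (hO e he w a).2 c, Pi.smul_apply, smul_eq_mul, mul_div_cancel_right₀ _ b]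
    · rw [eh e he _ hz]
      exact hC e he _ hz _ (hn hs.hol e he _ hz) s0
    · exact (neg_le_neg (mul_le_mul_of_nonneg_left ((le_abs_self _).trans (hK _))
        B.cast_nonneg)).trans (lo e he _ hz s0)
  · obtain ⟨e, he, hs'⟩ := M.cov x
    have := lo e he _ (e.map_source hs') ((vs e he _ (e.map_source hs')).1 (by rwa [e.left_inv hs']))
    rwa [e.left_inv hs', ← PRK.ll_eq dLOG hG.toMet sV he hs' ((V0 x).lt_of_ne' hx)] at this

end Pool.Agent.Lib.DK
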