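import Pool.Agent.Lib.DK.Blue

/-! Project dk: the small sets. -/

open scoped Topology
open Set MeasureTheory Filter

namespace Pool.Agent.Lib.DK

theorem dSML : St_SML := by
  intro Y _ μ _ q C η hq hC hη
  have m : ∀ L : ℕ, Measurable fun x => min 1 (Real.exp (q x - L)) := fun L =>
    measurable_const.min (hq.sub_const _).exp
  have p : ∀ (L : ℕ) x, 0 ≤ min 1 (Real.exp (q x - L)) := fun L x =>
    le_min zero_le_one (Real.exp_pos _).le
  have b : ∀ L : ℕ, ∀ᵐ x ∂μ, ‖min 1 (Real.exp (q x - L))‖ ≤ 1 := fun L =>
    Eventually.of_forall fun x => (Real.norm_of_nonneg (p L x)).trans_le (min_le_left _ _)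
  have t := (tendsto_integral_of_dominated_convergence (f := fun _ => (0 : ℝ)) (fun _ => 1)
    (fun L => (m L).aestronglyMeasurable) (integrable_const _) b (Eventually.of_forall fun x =>
      squeeze_zero (p · x) (fun L => min_le_right _ _) (Real.tendsto_exp_atBot.comp
        (tendsto_atBot_add_const_left _ (q x)
          (tendsto_neg_atTop_atBot.comp tendsto_natCast_atTop_atTop))))).const_mul C
  rw [integral_zero, mul_zero] at t
  obtain ⟨L, hL⟩ := (t.eventually_le_const hη).exists
  have i := Integrable.of_bound (m L).aestronglyMeasurable 1 (b L)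
  refine ⟨L, L.cast_nonneg, fun a ha h0 => (mul_le_mul_of_nonneg_left (le_trans ?_
    (setIntegral_le_integral (s := {x | (L : ℝ) < q x - a x}) i (Eventually.of_forall (p L))))
      hC).trans hL⟩
  refine setIntegral_mono_on (Integrable.of_bound ha.exp.aestronglyMeasurable 1
    (Eventually.of_forall fun x => (Real.norm_of_nonneg (Real.exp_pos _).le).trans_le
      (Real.exp_le_one_iff.2 (h0 x)))) i.integrableOn (measurableSet_lt measurable_const (hq.sub ha))
    fun x (hx : (L : ℝ) < q x - a x) =>
      le_min (Real.exp_le_one_iff.2 (h0 x)) (Real.exp_le_exp.2 (by linarith))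

end Pool.Agent.Lib.DK
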