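import Pool.Agent.Lib.DK.Blue
import Pool.Agent.Lib.NV5.D_VOL

/-! Project dk, row VOL: the volume argument with an explicit constant. -/

open scoped Classical Topology ENNReal
open Set MeasureTheory Filter

noncomputable section

namespace Pool.Agent.Lib.DK

theorem dVOL : St_VOL := by
  intro Y _ μ _ q K L hμ hq hK L0 hL u Ψ b F δ t ht _ hae h1 h2
  have hm0 : μ univ ≠ 0 := Measure.measure_univ_ne_zero.2 hμ
  have hmt : μ univ ≠ ⊤ := measure_ne_top _ _
  have hm : 0 < μ.real univ := ENNReal.toReal_pos hm0 hmt
  have hme : μ univ = ENNReal.ofReal (μ.real univ) := (ENNReal.ofReal_toReal hmt).symm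
  have hL' := (ENNReal.le_ofReal_iff_toReal_le (measure_ne_top μ _) (by positivity)).2 hL
  generalize μ.real univ = m at hm hme hL'
  by_contra hn
  have hu : ∀ x, u x < -(L + 1) := fun x => not_le.1 fun h => hn ⟨x, h⟩
  have hS : MeasurableSet {x | L < q x} := measurableSet_lt measurable_const hq
  have h3 : ∫⁻ x, ENNReal.ofReal (F x) ∂μ ≤ ∫⁻ x, (ENNReal.ofReal (1 / 4) +
      {x | L < q x}.indicator (fun _ => ENNReal.ofReal K) x) +
      ENNReal.ofReal (K * (δ * b x)) ∂μ := by
    refine lintegral_mono_ae ?_
    filter_upwards [hae] with x hx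
    have h4 := DM.VOL.point hK ht L0 hx.1 hx.2.1 hx.2.2.1 (hu x) hx.2.2.2
    refine (ENNReal.ofReal_le_ofReal h4).trans (ENNReal.ofReal_add_le.trans
      (add_le_add (ENNReal.ofReal_add_le.trans (add_le_add le_rfl ?_)) le_rfl))
    by_cases h5 : L < q x
    · rw [if_pos h5, indicator_of_mem (show x ∈ {x | L < q x} from h5)]
    · rw [if_neg h5, ENNReal.ofReal_zero]
      exact bot_le
  rw [lintegral_add_left (measurable_const.fun_add (measurable_const.indicator hS)),
    lintegral_add_left measurable_const, lintegral_const, lintegral_indicator_const hS] at h3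
  have h6 : ENNReal.ofReal K * μ {x | L < q x} ≤ ENNReal.ofReal (m / 8) := by
    refine (mul_le_mul_right hL' _).trans ?_
    rw [← ENNReal.ofReal_mul hK]
    refine ENNReal.ofReal_le_ofReal ?_
    rw [← mul_div_assoc, div_le_div_iff₀ (by positivity) (by positivity)]
    nlinarith
  have h7 : μ univ / 4 = ENNReal.ofReal (m / 4) := by
    rw [hme, ENNReal.ofReal_div_of_pos (by norm_num), ENNReal.ofReal_ofNat]
  have h8 := h2.trans (h3.trans (add_le_add (add_le_add le_rfl h6) h1))
  rw [h7, hme, ← ENNReal.ofReal_mul (by norm_num),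
    ← ENNReal.ofReal_add (by positivity) (by positivity),
    ← ENNReal.ofReal_add (by positivity) (by positivity),
    ENNReal.ofReal_le_ofReal_iff (by positivity)] at h8
  linarith

end Pool.Agent.Lib.DK
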