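import Pool.Agent.Lib.DK.Blue

/-! Project dk, row SEQ. -/

open scoped Classical Topology
open Set MeasureTheory Filter

namespace Pool.Agent.Lib.DK

theorem dSEQ : St_SEQ := by
  intro n M _ H T O N p hp hO ⟨δ, α, C, δ0, α0, h⟩
  choose u u1 u2 u3 u4 u5 using fun i : ℕ => h (1 / (i + 1 : ℝ)) Nat.one_div_pos_of_nat
    {x | 1 / (i + 1 : ℝ) ≤ |p x|} (isClosed_le continuous_const hp.abs).isCompact
    fun x hx => (hO x).1 (abs_pos.1 (Nat.one_div_pos_of_nat.trans_le hx))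
  refine ⟨δ, α, C, δ0, α0, u, fun i => ⟨u1 i, u2 i, u3 i, u4 i⟩, fun K hK hs => ?_⟩
  obtain ⟨c, c0, hc⟩ := hK.exists_forall_le' (a := 0) hp.abs.continuousOn
    fun x hx => abs_pos.2 ((hO x).2 (hs hx))
  exact (tendsto_one_div_add_atTop_nhds_zero_nat.eventually (ge_mem_nhds c0)).mono
    fun i hi x hx => u5 i x (le_trans hi (hc x hx))

end Pool.Agent.Lib.DK
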