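import Pool.Agent.Lib.DK.B_SGP
import Pool.Agent.Lib.DK.B_SEQ
import Pool.Agent.Lib.GH76.Pshp
import Pool.Agent.Lib.KH.Blue
import Pool.Agent.Lib.K3S.B_SG

/-! Project dk: domination in terms of weights on the canonical class. -/

open scoped Classical Topology ContDiff ENNReal ComplexOrder Matrix
open Set MeasureTheory Complex Filter

noncomputable section

namespace Pool.Agent.Lib.DK

open Pool.Agent.Lib.HS32 Pool.Agent.Lib.HS32.Mf Pool.Agent.Lib.DM Pool.Agent.Lib.DM.K63
open Pool.Agent.Lib.KH (SmK OnK Jo)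
open Pool.Agent.Lib.K3S (Dk)

variable {n : ℕ} {M : Mf n}

variable (M) in
/-- The canonical class dominates the logarithm of `N` on `O`. -/
def Rho (H : M.Fam (Mat n)) (O : Set M.X) (N : M.X → ℝ) : Prop := ∃ δ α C : ℝ, 0 < δ ∧ 0 < α ∧
  ∃ ρ : ℕ → M.X → ℝ, (∀ i, SmK M O (ρ i) ∧
    (OnK M O fun e z => (M.hs (ρ i) e z - M.ric H e z + (1 / (i + 1 : ℝ)) • H e z).PosSemidef) ∧
    (∀ x ∈ O, ρ i x ≤ C) ∧ Jo M H O (fun x => Real.exp (-(α * ρ i x))) ≤ ENNReal.ofReal C) ∧
  ∀ K, IsCompact K → K ⊆ O → ∀ᶠ i in atTop, ∀ x ∈ K, ρ i x + δ * Real.log (N x) ≤ C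

namespace RHO

variable {H Θ T : M.Fam (Mat n)} {σ p N : M.X → ℝ} {O : Set M.X}

theorem hlog (h : Sg M σ Θ) : M.All fun e z => σ (e.symm z) ≠ 0 →
    M.hs (fun x => Real.log (σ x)) e z = -Θ e z := fun e he z hz h0 => by
  have p : 0 < σ (e.symm z) := (h.nn _).lt_of_ne' h0
  refine (LOG.log36 (h.sm e he z hz) p).trans ?_
  change (σ (e.symm z))⁻¹ • M.hs σ e z - (σ (e.symm z) ^ 2)⁻¹ • M.ds σ σ e z = _
  rw [← h.eqn e he z hz, pk, smul_add, smul_add, smul_smul, smul_smul, smul_smul,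
    show (σ (e.symm z) ^ 2)⁻¹ * σ (e.symm z) = (σ (e.symm z))⁻¹ by field_simp,
    inv_mul_cancel₀ h0, one_smul]
  abel

variable [M.Cpt]

theorem neg (h : Sg M σ Θ) (hH : M.Met H) : ∃ γ C : ℝ, 0 < γ ∧ 0 ≤ C ∧ ∀ O : Set M.X,
    MeasurableSet O → (∀ x ∈ O, σ x ≠ 0) →
    Jo M H O (fun x => Real.exp (-(γ * Real.log (σ x)))) ≤ ENNReal.ofReal C := by
  obtain ⟨B, B0, hB, -⟩ := (mBD n M H hH).1 Θ h.clo.toForm
  obtain ⟨γ, A, γ0, A0, hA⟩ := GH76.skoda M B hH
  obtain ⟨x₀, h0⟩ := h.ne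
  refine ⟨γ, Real.exp (-(γ * Real.log (σ x₀))) * A, γ0, by positivity, fun O mO hO => ?_⟩
  have d0 : ∀ k : ℕ, 0 < 1 / (k + 1 : ℝ) := fun _ => Nat.one_div_pos_of_nat
  have c : ∀ k : ℕ, Continuous fun x => Real.exp (-(γ * Real.log (σ x + 1 / (k + 1 : ℝ)))) :=
    fun k => Real.continuous_exp.comp (continuous_const.mul (h.lsm (d0 k)).continuous).neg
  refine le_trans (lintegral_mono_ae ((ae_restrict_mem mO).mono fun x hx => ?_))
    ((lintegral_liminf_le fun k => (c k).measurable.ennreal_ofReal).trans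
      (liminf_le_of_frequently_le' (Frequently.of_forall (f := atTop) fun k => ?_)))
  · have t := (tendsto_const_nhds (x := σ x)).add (tendsto_one_div_add_atTop_nhds_zero_nat (𝕜 := ℝ))
    rw [add_zero] at t
    exact (ENNReal.tendsto_ofReal (((t.log (hO x hx)).const_mul γ).neg.rexp)).liminf_eq.ge
  · have s := h.lsm (d0 k)
    obtain ⟨y, hy⟩ := s.exists_max
    have k1 := hA _ (s.add (sm_const (-Real.log (σ y + 1 / (k + 1 : ℝ)))))
      ((h.low hH B0.le hB _ (d0 k)).congr (fun _ _ _ _ => rfl) fun e he z hz => by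
        simp only [Pi.add_apply]; rw [hs_add_const s _ e he z hz])
      (fun x => by linarith [hy x]) ⟨y, add_neg_cancel _⟩
    refine (setLIntegral_le_lintegral _ _).trans ?_
    rw [← ofReal_integral_eq_lintegral_ofReal (int hH (c k)) (.of_forall fun _ =>
      (Real.exp_pos _).le)]
    refine ENNReal.ofReal_le_ofReal (le_trans ?_ (mul_le_mul_of_nonneg_left k1 (Real.exp_pos _).le))
    rw [← integral_const_mul]
    refine integral_mono (int hH (c k)) (int hH (continuous_const.mul (Real.continuous_exp.comp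
      (continuous_const.mul (s.continuous.add continuous_const).neg)))) fun x => ?_
    have k2 := (Real.log_le_log ((h.nn _).lt_of_ne' h0) (le_add_of_nonneg_right (d0 k).le)).trans
      (hy x₀)
    beta_reduce
    rw [← Real.exp_add, Real.exp_le_exp]
    nlinarith

theorem pt {α γ s b u l : ℝ} (h0 : 0 ≤ s) (b0 : 0 ≤ b) (h1 : 2 * s ≤ α) (h2 : 2 * s * b ≤ γ)
    (hu : u ≤ 0) :
    Real.exp (-(s * (u + b * l))) ≤ Real.exp (α * -u) + (1 + Real.exp (-(γ * l))) := by
  have p1 := Real.exp_pos (α * -u)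
  have p2 := Real.exp_pos (-(γ * l))
  have p3 := mul_nonneg h0 b0
  rcases le_total (-(s * (u + b * l))) (α * -u) with k | k
  · linarith [Real.exp_le_exp.2 k]
  rcases le_total 0 l with k' | k'
  · have : -(s * (u + b * l)) ≤ 0 := by nlinarith [mul_nonneg p3 k']
    linarith [Real.exp_le_one_iff.2 this]
  · have : -(s * (u + b * l)) ≤ -(γ * l) := by nlinarith
    linarith [Real.exp_le_exp.2 this]

theorem of (h : Sg M σ Θ) (hH : M.Met H) {b : ℝ} (b0 : 0 ≤ b)
    (hT : M.All fun e z => T e z = -M.ric H e z - b • Θ e z) (hp : Continuous p)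
    (pO : ∀ x, p x ≠ 0 ↔ x ∈ O) (hO : ∀ x ∈ O, σ x ≠ 0) (hD : Dom M H T O N) : Rho M H O N := by
  obtain ⟨δ, α, C, δ0, α0, u, u1, u2⟩ := dSEQ n M H T O N p hp pO hD
  obtain ⟨γ, A, γ0, A0, hA⟩ := neg h hH
  obtain ⟨S, S0, hS⟩ := h.sm.exists_bound
  have fin := (mMU n M H hH).2.1
  have mO : MeasurableSet O := by
    rw [show O = {x | p x ≠ 0} from Set.ext fun x => (pO x).symm]
    exact (isOpen_ne_fun hp continuous_const).measurableSet
  have l1 : ∀ x ∈ O, b * Real.log (σ x) ≤ b * S := fun x hx => mul_le_mul_of_nonneg_left (by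
    linarith [Real.log_le_sub_one_of_pos ((h.nn x).lt_of_ne' (hO x hx)),
      (le_abs_self _).trans (hS x)]) b0
  have C0 : 0 ≤ C := (integral_nonneg fun _ => (Real.exp_pos _).le).trans (u1 0).2.2.2
  have v0 := measureReal_nonneg (μ := M.mu H) (s := univ)
  have S1 := mul_nonneg b0 S0.le
  have s0 : 0 < min (α / 2) (γ / (2 * (b + 1))) := by positivity
  refine ⟨δ, _, C + ((M.mu H).real univ + A) + b * S, δ0, s0,
    fun i x => u i x + b * Real.log (σ x), fun i => ⟨fun e he z hz hx => ?_, fun e he z hz hx => ?_,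
      fun x hx => by linarith [(u1 i).2.2.1 x, l1 x hx], ?_⟩, fun K hK hs =>
      (u2 K hK hs).mono fun i hi x hx => by linarith [hi x hx, l1 x (hs hx)]⟩
  · exact ((u1 i).1 e he z hz).add (contDiffAt_const.mul ((h.sm e he z hz).log (hO _ hx)))
  · have a := cd_ofReal ((h.sm e he z hz).log (hO _ hx))
    have k : M.hs (fun x => u i x + b * Real.log (σ x)) e z =
        M.hs (u i) e z + b • M.hs (fun x => Real.log (σ x)) e z := by
      refine Eq.trans ?_ (congrArg _ (hess_const_mul (b : ℂ) a))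
      refine Eq.trans ?_ (hess_add ((u1 i).1.lc e he z hz) (contDiffAt_const.mul a))
      exact congrArg (hess · z) (funext fun w => by simp [Mf.lc])
    refine (congrArg Matrix.PosSemidef ?_).mp (le0.1 (u1 i).2.1 e he z hz)
    simp only [Pi.add_apply, Pi.smul_apply, k, hT e he z hz, hlog h e he z hz (hO _ hx)]
    module
  · have cu : Continuous fun x => Real.exp (α * -u i x) :=
      Real.continuous_exp.comp (continuous_const.mul (u1 i).1.continuous.neg)
    have m1 : 2 * min (α / 2) (γ / (2 * (b + 1))) ≤ α := by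
      linarith [min_le_left (α / 2) (γ / (2 * (b + 1)))]
    have m2 : 2 * min (α / 2) (γ / (2 * (b + 1))) * b ≤ γ := by
      have := (le_div_iff₀ (by positivity)).1 (min_le_right (α / 2) (γ / (2 * (b + 1))))
      nlinarith
    refine (lintegral_mono fun x => (ENNReal.ofReal_le_ofReal (pt s0.le b0 m1 m2
      ((u1 i).2.2.1 x))).trans (ENNReal.ofReal_add_le.trans
        (add_le_add le_rfl ENNReal.ofReal_add_le))).trans ?_
    rw [lintegral_add_left cu.measurable.ennreal_ofReal, lintegral_add_left measurable_const]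
    refine le_trans ?_ (ENNReal.ofReal_le_ofReal (le_add_of_nonneg_right S1))
    rw [ENNReal.ofReal_add C0 (add_nonneg v0 A0), ENNReal.ofReal_add v0 A0]
    refine add_le_add ((setLIntegral_le_lintegral _ _).trans ?_)
      (add_le_add ((setLIntegral_le_lintegral _ _).trans_eq ?_) (hA O mO hO))
    · rw [← ofReal_integral_eq_lintegral_ofReal (int hH cu) (.of_forall fun _ =>
        (Real.exp_pos _).le)]
      exact ENNReal.ofReal_le_ofReal (u1 i).2.2.2
    · rw [lintegral_const, ENNReal.ofReal_one, one_mul, ofReal_measureReal]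

end RHO

/-- From the nef part to the canonical class. -/
theorem rho_of [M.Cpt] {I : Type} [Fintype I] (D : Dk M I) {p N : M.X → ℝ} {O : Set M.X}
    (hp : Continuous p) (pO : ∀ x, p x ≠ 0 ↔ x ∈ O)
    (hO : ∀ x ∈ O, ∀ k, D.a k ≠ 0 → M.nrC (D.φ k) (D.f k) x ≠ 0) (hD : Dom M D.H D.T O N) :
    Rho M D.H O N := by
  have hH := D.kae.toMet
  have h := SGP.prod (fun k => SGP.pw (K3S.bSG n M D.H _ _ _ hH (D.hol k) (D.wt k) fun x =>
    let ⟨e, he, hx, h⟩ := D.deg k x
    ⟨e, he, hx, fun c => (h c).1⟩).1 (D.a k)) Finset.univ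
  refine RHO.of (ZE45.bridge hH h) hH (b := (D.c : ℝ)⁻¹) (by positivity) (fun e he z hz => ?_) hp pO
    (fun x hx => Finset.prod_ne_zero_iff.2 fun k _ => ?_) hD
  · simp only [K3S.Dk.T, Pi.sub_apply, Pi.neg_apply, Finset.sum_apply, Pi.smul_apply,
      Finset.smul_sum, smul_smul, div_eq_inv_mul]
  · by_cases h0 : D.a k = 0
    · simp [h0]
    · exact pow_ne_zero _ (hO x hx k h0)

end Pool.Agent.Lib.DK
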