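import Pool.Agent.Lib.DK.B_AVG
import Pool.Agent.Lib.DK.B_DEN
import Pool.Agent.Lib.DK.B_KX
import Pool.Agent.Lib.DK.B_KXA
import Pool.Agent.Lib.DK.B_MVU
import Pool.Agent.Lib.DK.B_ONE
import Pool.Agent.Lib.DK.B_PAI
import Pool.Agent.Lib.DK.B_SML
import Pool.Agent.Lib.DK.B_VOL
import Pool.Agent.Lib.DK.Rho
import Pool.Agent.Lib.NV5.D_MAX
import Pool.Agent.Lib.K3S.B_ORT
import Pool.Agent.Lib.KT.Defs

/-! Project dk assembled. -/

open scoped Classical Topology Matrix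
open Set Complex

namespace Pool.Agent.Lib.DK

open Pool.Agent.Lib.HS32
open Pool.Agent.Lib.K3S (Dk)
open Pool.Agent.Lib.RAA (kp)

theorem aKX (hA : HS.St_AUBIN) : St_KX :=
  dKX (dSGP K3S.bSG (K3S.bORT K3S.bSG)) dDEN (dKXA hA)

theorem aONE (hA : HS.St_AUBIN) : St_ONE := dONE (dMVU dVOL (DM.dMAX hA)) dSML

theorem aDOM (hA : HS.St_AUBIN) : St_DOM := dom (aKX hA) (aONE hA) dAVG

theorem aPAI : St_PAI := dPAI K3E.bID

/-- The canonical class dominates the quotients of proportional tensors. -/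
theorem rho (hA : HS.St_AUBIN) {n : ℕ} {M : Mf n} [M.Cpt] {I : Type} [Fintype I] (D : Dk M I)
    (τ : KT.Tn M) (hN : τ.N ≤ τ.B)
    (hO : ∀ x ∈ τ.O, ∀ k, D.a k ≠ 0 → M.nrC (D.φ k) (D.f k) x ≠ 0) {ι : Type} [Fintype ι]
    [Nonempty ι] (g : ι → M.X → ℂ) (t : ι → M.Fam ((Fin τ.N → Fin n) → ℂ))
    (h1 : ∀ i, HLK.Hol (t i))
    (h2 : ∀ i, M.Ov fun e e' x =>
      t i e (e x) = ((M.J e e' x).det ^ τ.B)⁻¹ • kp τ.N (M.J e e' x) *ᵥ t i e' (e' x))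
    (h3 : ∀ i, M.All fun e z => τ.s e z ≠ 0 → t i e z = g i (e.symm z) • τ.s e z) :
    Rho M D.H τ.O fun x => 1 + ∑ i, normSq (g i x) :=
  have h := τ.pn_rep D.kae.toMet
  rho_of D h.2.1.continuous h.2.2.2 hO (aDOM hA n M I D _ ι g fun i =>
    aPAI n M _ _ τ.s (t i) _ _ hN τ.tw (h1 i) (h2 i) fun e he z hz =>
      ⟨τ.mem_O e he z hz, h3 i e he z hz⟩)

end Pool.Agent.Lib.DK
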