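import Pool.Agent.Lib.DK.Blue

/-! Project dk, row AVG: the mean of the potentials. -/

open scoped Classical Topology ContDiff ENNReal ComplexOrder Matrix
open Set MeasureTheory Complex Filter

set_option linter.unusedVariables false

noncomputable section

namespace Pool.Agent.Lib.DK

open Pool.Agent.Lib.SV (E)
open Pool.Agent.Lib.HS32

namespace AVG

theorem log_le {ι : Type} (s : Finset ι) {f : ι → ℝ} (h : ∀ i, 0 ≤ f i) :
    Real.log (1 + ∑ i ∈ s, f i) ≤ ∑ i ∈ s, Real.log (1 + f i) := by
  induction s using Finset.induction_on with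
  | empty => simp
  | insert a s ha ih =>
    have p : 0 ≤ ∑ i ∈ s, f i := Finset.sum_nonneg fun i _ => h i
    have q := h a
    rw [Finset.sum_insert ha, Finset.sum_insert ha]
    refine le_trans ?_ (add_le_add_right ih _)
    rw [← Real.log_mul (by positivity) (by positivity)]
    exact Real.log_le_log (by positivity) (by nlinarith [mul_nonneg p q])

theorem hs_sum {n : ℕ} {M : Mf n} {ι : Type} (s : Finset ι) {u : ι → M.X → ℝ}
    (h : ∀ i, M.Sm (u i)) : M.All fun e z =>
      M.hs (fun x => ∑ i ∈ s, u i x) e z = ∑ i ∈ s, M.hs (u i) e z := fun e he z hz => by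
  induction s using Finset.induction_on with
  | empty => exact ((mLAP n M _ _ (Mf.sm_const 0) (Mf.sm_const 0)).1 0 e he z hz).1
  | insert a s ha ih =>
    simp only [Finset.sum_insert ha] at ih ⊢
    rw [← ih]
    exact ((mLAP n M _ _ (h a) (Mf.Sm.sum fun i _ => h i)).1 0 e he z hz).2.1

end AVG

theorem dAVG : St_AVG := by
  intro n M _ H T O ι _ _ f hH hf h
  choose δ α C d0 a0 h using h
  obtain ⟨i, -, hi⟩ := Finset.exists_min_image Finset.univ δ Finset.univ_nonempty
  obtain ⟨j, -, hj⟩ := Finset.exists_min_image Finset.univ α Finset.univ_nonempty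
  have c1 : (1 : ℝ) ≤ Fintype.card ι := Nat.one_le_cast.2 Fintype.card_pos
  have c0 : (0 : ℝ) < (Fintype.card ι : ℝ)⁻¹ := by positivity
  refine ⟨(Fintype.card ι : ℝ)⁻¹ * δ i, α j, ∑ k, |C k|, mul_pos c0 (d0 i), a0 j,
    fun ε hε K hK hO => ?_⟩
  choose u u1 u2 u3 u4 u5 using fun k => h k ε hε K hK hO
  have su : M.Sm fun x => ∑ k, u k x := Mf.Sm.sum fun k _ => u1 k
  have cu := fun k => Real.continuous_exp.comp ((u1 k).continuous.neg.const_mul (α k))
  have iu := fun k => (mMU n M H hH).2.2.2.2.1 _ _ (cu k)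
  refine ⟨fun x => (Fintype.card ι : ℝ)⁻¹ * ∑ k, u k x, su.const_mul _, fun e he z hz => ?_,
    fun x => mul_nonpos_of_nonneg_of_nonpos c0.le (Finset.sum_nonpos fun k _ => u3 k x), ?_,
    fun x hx => ?_⟩
  · have k := Mf.psd_rsmul (Matrix.posSemidef_sum Finset.univ fun k _ => u2 k e he z hz) c0.le
    simp only [Pi.add_apply, Pi.zero_apply, sub_zero, Finset.sum_add_distrib, Finset.sum_const,
      Finset.card_univ, ← Nat.cast_smul_eq_nsmul ℝ, smul_add,
      inv_smul_smul₀ (zero_lt_one.trans_le c1).ne'] at k ⊢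
    rwa [((mLAP n M _ _ su su).1 _ e he z hz).2.2.2.1, AVG.hs_sum _ u1 e he z hz]
  · refine (integral_mono_of_nonneg (Eventually.of_forall fun x => (Real.exp_pos _).le)
      (integrable_finsetSum Finset.univ fun k _ => iu k) (Eventually.of_forall fun x => ?_)).trans ?_
    · obtain ⟨k, -, hk⟩ := Finset.exists_min_image Finset.univ (u · x) Finset.univ_nonempty
      refine le_trans (Real.exp_le_exp.2 ?_) (Finset.single_le_sum
        (f := fun k => Real.exp (α k * -u k x)) (fun _ _ => (Real.exp_pos _).le) (Finset.mem_univ k))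
      have a := Finset.card_nsmul_le_sum _ _ _ hk
      rw [Finset.card_univ, nsmul_eq_mul, ← le_inv_mul_iff₀ (zero_lt_one.trans_le c1)] at a
      exact (mul_le_mul_of_nonneg_left (neg_le_neg a) (a0 j).le).trans
        (mul_le_mul_of_nonneg_right (hj k (Finset.mem_univ k)) (neg_nonneg.2 (u3 k x)))
    · rw [integral_finsetSum _ fun k _ => iu k]
      exact Finset.sum_le_sum fun k _ => (u4 k).trans (le_abs_self _)
  · have a : ∑ k, u k x + δ i * Real.log (1 + ∑ k, f k x) ≤ ∑ k, |C k| := by
      refine (add_le_add_right (mul_le_mul_of_nonneg_left (AVG.log_le _ fun k => hf k x)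
        (d0 i).le) _).trans ?_
      rw [Finset.mul_sum, ← Finset.sum_add_distrib]
      refine Finset.sum_le_sum fun k _ => le_trans (add_le_add_right ?_ _)
        ((u5 k x hx).trans (le_abs_self _))
      exact mul_le_mul_of_nonneg_right (hi k (Finset.mem_univ k))
        (Real.log_nonneg (le_add_of_nonneg_right (hf k x)))
    rw [mul_assoc, ← mul_add]
    exact (mul_le_mul_of_nonneg_left a c0.le).trans (mul_le_of_le_one_left
      (Finset.sum_nonneg fun k _ => abs_nonneg _) (inv_le_one_of_one_le₀ c1))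

end Pool.Agent.Lib.DK
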