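import Pool.Agent.Lib.DK.Blue

/-! Project dk, row SGP: the norm of the section of the exceptional divisor. -/

open scoped Classical Topology ContDiff ENNReal ComplexOrder Matrix
open Set MeasureTheory Complex Filter

set_option linter.unusedSectionVars false

noncomputable section

namespace Pool.Agent.Lib.DK

open Pool.Agent.Lib.HS32 Pool.Agent.Lib.DM

namespace SGP

variable {n : ℕ} {M : Mf n} [M.Cpt] {Θ Θ' G T : M.Fam (Mat n)} {σ σ' : M.X → ℝ}

theorem one : DX.Sg M 0 fun _ => 1 := by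
  refine ⟨Mf.sm_const _, fun _ => zero_le_one, Mf.clo_zero, fun e he z hz => ?_, fun G _ => by
    simp only [one_ne_zero, ofPred_false, measure_empty], fun G hG => K63.int hG continuous_const⟩
  beta_reduce
  rw [((mLAP n M _ _ (Mf.sm_const (1 : ℝ)) (Mf.sm_const (1 : ℝ))).1 1 e he z hz).1]
  ext i j
  simp [Mf.ds, show M.lc (fun _ => 1) e = fun _ => 1 from rfl, dz]

theorem mul (h : DX.Sg M Θ σ) (h' : DX.Sg M Θ' σ') : DX.Sg M (Θ + Θ') fun x => σ x * σ' x := by
  refine ⟨h.sm.mul h'.sm, fun x => mul_nonneg (h.nn x) (h'.nn x), h.clo.add h'.clo,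
    fun e he z hz => ?_, fun G hG => ?_, fun G hG => ?_⟩
  · have a := h.eq e he z hz
    have b := h'.eq e he z hz
    have d := cd_diff (h.sm.lc e he z hz)
    have d' := cd_diff (h'.sm.lc e he z hz)
    have l : M.lc (fun x => σ x * σ' x) e = fun w => M.lc σ e w * M.lc σ' e w :=
      funext fun w => ofReal_mul _ _
    beta_reduce at a b ⊢
    rw [((mLAP n M _ _ h.sm h'.sm).1 1 e he z hz).2.2.2.2]
    ext i j
    have a' := congrFun (congrFun a i) j
    have b' := congrFun (congrFun b i) j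
    simp only [Mf.ds, l, dd_apply, HS32.dz_mul d d', dzb_mul d d', Matrix.add_apply, Pi.add_apply,
      Matrix.smul_apply, real_smul, ofReal_mul, ofReal_pow] at a' b' ⊢
    simp only [Mf.lc] at a' b' ⊢
    linear_combination (σ' (e.symm z) : ℂ) ^ 2 * a' + (σ (e.symm z) : ℂ) ^ 2 * b'
  · simp only [mul_eq_zero, ofPred_or]
    exact measure_union_null (h.nul G hG) (h'.nul G hG)
  · refine ((h.int G hG).add (h'.int G hG)).congr ?_
    filter_upwards [measure_eq_zero_iff_ae_notMem.1 (h.nul G hG),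
      measure_eq_zero_iff_ae_notMem.1 (h'.nul G hG)] with x a b
    exact (Real.log_mul a b).symm

theorem pw (h : DX.Sg M Θ σ) (m : ℕ) : DX.Sg M ((m : ℝ) • Θ) fun x => σ x ^ m := by
  induction m with
  | zero => simpa using one
  | succ m ih => simpa only [Nat.cast_succ, add_smul, one_smul, pow_succ] using mul ih h

theorem prod {I : Type} {Θ : I → M.Fam (Mat n)} {σ : I → M.X → ℝ} (h : ∀ k, DX.Sg M (Θ k) (σ k))
    (s : Finset I) : DX.Sg M (∑ k ∈ s, Θ k) fun x => ∏ k ∈ s, σ k x := by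
  induction s using Finset.induction_on with
  | empty => simpa using one
  | insert a s ha ih => simpa only [Finset.sum_insert ha, Finset.prod_insert ha] using mul (h a) ih

theorem scale (hG : M.Met G) {C : ℝ} (hC : 0 < C) :
    ∫ x, M.tr (C • G) T x ∂M.mu (C • G) = C ^ n * C⁻¹ * ∫ x, M.tr G T x ∂M.mu G := by
  rw [((mMU n M G hG).2.2.2.2.2.2 _ (hG.smul hC)).2.1, ← integral_const_mul]
  refine integral_congr_ae (ae_of_all _ fun x => ?_)
  have e : (M.ev (C • G) x)⁻¹ = C⁻¹ • (M.ev G x)⁻¹ := Matrix.inv_eq_left_inv (by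
    rw [show M.ev (C • G) x = C • M.ev G x from rfl, Matrix.smul_mul, Matrix.mul_smul, smul_smul,
      inv_mul_cancel₀ hC.ne', one_smul, Matrix.nonsing_inv_mul _ (hG.ev_det x).isUnit])
  beta_reduce
  rw [Mf.dq_smul, hG.dq_self, Mf.tr, Mf.tr, e, Matrix.smul_mul, Matrix.trace_smul, smul_re,
    smul_eq_mul]
  ring

theorem sum {I : Type} {Θ : I → M.Fam (Mat n)} (a : I → ℝ) (hG : M.Met G) (h : ∀ k, M.Ten (Θ k))
    (s : Finset I) : ∫ x, M.tr G (∑ k ∈ s, a k • Θ k) x ∂M.mu G =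
      ∑ k ∈ s, a k * ∫ x, M.tr G (Θ k) x ∂M.mu G := by
  have e : ∀ x, M.tr G (∑ k ∈ s, a k • Θ k) x = ∑ k ∈ s, a k * M.tr G (Θ k) x := fun x => by
    induction s using Finset.induction_on with
    | empty => simp [Mf.tr, Mf.ev]
    | insert b s hb ih => rw [Finset.sum_insert hb, Finset.sum_insert hb, Mf.tr_add, Mf.tr_smul, ih]
  simp only [e]
  rw [integral_finsetSum _ fun k _ => (K63.int hG (K63.tr_c hG (h k))).const_mul _]
  simp only [integral_const_mul]

end SGP

theorem dSGP (hSG : K3S.St_SG) (hORT : K3S.St_ORT) : St_SGP := by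
  intro n M _ I _ D
  have hH := D.kae.toMet
  have h := SGP.prod (fun k => SGP.pw (hSG n M D.H _ _ _ hH (D.hol k) (D.wt k) fun x =>
    let ⟨e, he, hx, h⟩ := D.deg k x
    ⟨e, he, hx, fun c => (h c).1⟩).1 (D.a k)) Finset.univ
  refine ⟨_, ZE45.bridge hH h, h.nul _ hH, fun C hC η η0 => ?_⟩
  have a0 : (0 : ℝ) ≤ ∑ k, (D.a k : ℝ) := by positivity
  have t : Tendsto (fun ε : ℝ => ε / C) (𝓝[>] 0) (𝓝[>] 0) :=
    tendsto_nhdsWithin_iff.2 ⟨by
      simpa using ((continuous_id.div_const C).tendsto (0 : ℝ)).mono_left nhdsWithin_le_nhds,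
      eventually_mem_nhdsWithin.mono fun ε (h : 0 < ε) => div_pos h hC⟩
  filter_upwards [t.eventually (eventually_all.2 fun k => hORT n M I D k
    (η / (C ^ n * C⁻¹ * (∑ k, (D.a k : ℝ) + 1))) (by positivity)), self_mem_nhdsWithin]
    with ε k (ε0 : 0 < ε)
  have p := div_pos ε0 hC
  have m : M.Met (D.β + (ε / C) • D.H) := (hH.smul p).of_le (D.cβ.toForm.add (hH.toForm.smul _))
    fun e he z hz => by simpa using D.nβ e he z hz
  rw [show C • D.β + ε • D.H = C • (D.β + (ε / C) • D.H) by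
    rw [smul_add, smul_smul, mul_div_cancel₀ _ hC.ne'], SGP.scale m hC,
    SGP.sum _ m fun k => (D.wt k).clo.toTen]
  calc _ ≤ C ^ n * C⁻¹ * ∑ k, (D.a k : ℝ) * (η / (C ^ n * C⁻¹ * (∑ k, (D.a k : ℝ) + 1))) :=
        mul_le_mul_of_nonneg_left (Finset.sum_le_sum fun j _ =>
          mul_le_mul_of_nonneg_left (k j) (Nat.cast_nonneg _)) (by positivity)
    _ = (∑ k, (D.a k : ℝ)) / (∑ k, (D.a k : ℝ) + 1) * η := by
        rw [← Finset.sum_mul]; field_simp
    _ ≤ η := mul_le_of_le_one_left η0.le ((div_le_one (by positivity)).2 (by linarith))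

end Pool.Agent.Lib.DK
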