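import Pool.Agent.Lib.K3S.Blue
import Pool.Agent.Lib.ZE45.Kit

/-! Project dk: the nef class dominates the quotients of tensors on a compact Kähler manifold.
Blueprint. -/

open scoped Classical Topology ContDiff ENNReal ComplexOrder Matrix
open Set MeasureTheory Complex Filter

set_option linter.unusedVariables false

noncomputable section

namespace Pool.Agent.Lib.DK

open Pool.Agent.Lib.SV (E)
open Pool.Agent.Lib.HS32 Pool.Agent.Lib.DM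
open Pool.Agent.Lib.K3S (Dk)
open Pool.Agent.Lib.K3E (Tw)
open Pool.Agent.Lib.RAA (kp)

section defs

variable {n : ℕ} (M : Mf n)

/-- Kähler metrics near the class of `T` with a mean bound for the Ricci curvature and a bounded
density. -/
def Kx (H T : M.Fam (Mat n)) : Prop := ∃ k C : ℝ, 0 ≤ k ∧ 0 ≤ C ∧ ∀ ε > (0 : ℝ),
  ∃ (G Q : M.Fam (Mat n)) (a : M.X → ℝ), M.Kae G ∧ M.Form Q ∧ M.Le 0 Q ∧ M.Le 0 (Q + M.ric G) ∧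
    ∫ x, M.tr G Q x ∂M.mu G ≤ k * (M.mu G).real univ ∧ M.Sm a ∧ (∀ x, a x ≤ 0) ∧
    M.Le G (T + ε • H + M.hs a) ∧ ∀ x, M.dq H G x ≤ C * (M.mu G).real univ * Real.exp (a x)

/-- The function `g` on `O` is a quotient of two tensors. -/
def Tn (O : Set M.X) (g : M.X → ℂ) : Prop := ∃ B : ℝ, 0 ≤ B ∧ ∀ G Q : M.Fam (Mat n), M.Kae G →
  M.Form Q → M.Le 0 Q → M.Le 0 (Q + M.ric G) → ∃ (V W : M.X → ℝ) (C l : ℝ), 0 < C ∧ 0 ≤ l ∧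
    Pr M G l C V W ∧ (∀ x, V x ≠ 0 ↔ x ∈ O) ∧ (∀ x ∈ O, W x = V x * normSq (g x)) ∧
    ∀ x, V x ≠ 0 → -(B * M.tr G Q x) ≤ ll M G V x

/-- The class of `T` dominates the logarithm of `N` on `O`. -/
def Dom (H T : M.Fam (Mat n)) (O : Set M.X) (N : M.X → ℝ) : Prop := ∃ δ α C : ℝ, 0 < δ ∧ 0 < α ∧
  ∀ ε > (0 : ℝ), ∀ K, IsCompact K → K ⊆ O → ∃ u, M.Sm u ∧ M.Le 0 (T + ε • H + M.hs u) ∧
    (∀ x, u x ≤ 0) ∧ ∫ x, Real.exp (α * -u x) ∂M.mu H ≤ C ∧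
    ∀ x ∈ K, u x + δ * Real.log (N x) ≤ C

end defs

/-- The volume argument with an explicit constant. -/
def St_VOL : Prop := ∀ (Y : Type) [MeasurableSpace Y] (μ : Measure Y) [IsFiniteMeasure μ]
  (q : Y → ℝ) (K L : ℝ), μ ≠ 0 → Measurable q → 0 ≤ K → 0 ≤ L →
  μ.real {x | L < q x} ≤ μ.real univ / (8 * (K + 1)) →
  ∀ (u Ψ b F : Y → ℝ) (δ t : ℝ), 8 * K ≤ t → AEMeasurable b μ →
    (∀ᵐ x ∂μ, 0 ≤ δ * b x ∧ u x ≤ Ψ x ∧ -q x ≤ Ψ x ∧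
      F x ≤ Real.exp (t * u x) * (Real.exp (-(t * Ψ x)) * (K * (1 + δ * b x)) + 1 / 8)) →
    ∫⁻ x, ENNReal.ofReal (K * (δ * b x)) ∂μ ≤ μ univ / 4 →
    μ univ ≤ ∫⁻ x, ENNReal.ofReal (F x) ∂μ → ∃ x, -(L + 1) ≤ u x

/-- The potentials with an explicit constant. -/
def St_MVU : Prop := ∀ (n : ℕ) (M : Mf n) [M.Cpt] (G : M.Fam (Mat n)) (l l' C δ L : ℝ)
  (V W p a : M.X → ℝ), 0 < n → M.Kae G → Pr M G l C V W → 0 < C → 0 ≤ l → 0 ≤ δ → Continuous p →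
  (∀ x, 0 ≤ p x) → (∀ x, V x ≠ 0 → -p x ≤ ll M G V x) → 0 ≤ l' →
  ∫ x, p x ∂M.mu G ≤ l' * (M.mu G).real univ → 2 ^ (n + 2) * δ * l' ≤ 1 → Continuous a →
  (∀ x, a x ≤ 0) → 0 ≤ L →
  (M.mu G).real {x | L < δ * (Real.log (V x + W x) - Real.log (V x)) - a x} ≤
    (M.mu G).real univ / (8 * (2 ^ n + 1)) →
  ∀ K, IsCompact K → (∀ x ∈ K, V x ≠ 0) → ∃ u, M.Sm u ∧ M.Kae (G + M.hs u) ∧
    (∃ x, -(L + 1) ≤ u x + a x) ∧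
    ∀ x ∈ K, u x + δ * (Real.log (V x + W x) - Real.log (V x)) ≤ 2

/-- The exceptional divisor. -/
def St_SGP : Prop := ∀ (n : ℕ) (M : Mf n) [M.Cpt] (I : Type) [Fintype I] (D : Dk M I),
  ∃ σ : M.X → ℝ, K63.Sg M σ (∑ k, (D.a k : ℝ) • M.hw (D.φ k)) ∧
    M.mu D.H {x | σ x = 0} = 0 ∧ ∀ C > (0 : ℝ), ∀ η > (0 : ℝ), ∀ᶠ ε in 𝓝[>] (0 : ℝ),
      ∫ x, M.tr (C • D.β + ε • D.H) (∑ k, (D.a k : ℝ) • M.hw (D.φ k)) x
        ∂M.mu (C • D.β + ε • D.H) ≤ η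

/-- A lower bound for the total mass. -/
def St_DEN : Prop := ∀ (n : ℕ) (M : Mf n) [M.Cpt] (H : M.Fam (Mat n)) (σ : M.X → ℝ) (C₀ b : ℝ),
  M.Met H → Continuous σ → (∀ x, 0 ≤ σ x) → M.mu H {x | σ x = 0} = 0 → 0 ≤ b → ∃ C : ℝ, 0 ≤ C ∧
  ∀ δ > (0 : ℝ), ∀ a, M.Sm a → M.Le 0 (C₀ • H + M.hs a) → (∀ x, a x ≤ 0) → (∃ x, a x = 0) →
    ∀ x, Real.exp (b * Real.log (σ x + δ)) ≤
      C * ∫ y, Real.exp (a y + b * Real.log (σ y + δ)) ∂M.mu H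

/-- The metrics of Aubin with the equation. -/
def St_KXA : Prop := ∀ (n : ℕ) (M : Mf n) [M.Cpt] (G B Θ : M.Fam (Mat n)) (σ F : M.X → ℝ)
  (a η : ℝ), 0 < n → M.Kae G → M.Kae B → M.Le G B → K63.Sg M σ Θ → M.Sm F → 0 ≤ a → 0 < η →
  M.Le (M.hs F - M.ric G) (G + a • Θ) → ∃ δ > (0 : ℝ), ∃ u Q, M.Sm u ∧ M.Kae (G + M.hs u) ∧
    M.Form Q ∧ M.Le 0 Q ∧ M.Le 0 (Q + M.ric (G + M.hs u)) ∧
    ∫ x, M.tr (G + M.hs u) Q x ∂M.mu (G + M.hs u) ≤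
      n * (M.mu (G + M.hs u)).real univ + a * ∫ x, M.tr B Θ x ∂M.mu B + η ∧
    ∀ x, M.dq G (G + M.hs u) x = Real.exp (u x + (F x + a * Real.log (σ x + δ)))

/-- The family of metrics. -/
def St_KX : Prop := ∀ (n : ℕ) (M : Mf n) [M.Cpt] (I : Type) [Fintype I] (D : Dk M I),
  Kx M D.H D.T

/-- The small sets. -/
def St_SML : Prop := ∀ (Y : Type) [MeasurableSpace Y] (μ : Measure Y) [IsFiniteMeasure μ]
  (q : Y → ℝ) (C η : ℝ), Measurable q → 0 ≤ C → 0 < η → ∃ L : ℝ, 0 ≤ L ∧ ∀ (a : Y → ℝ),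
    Measurable a → (∀ x, a x ≤ 0) → C * ∫ x in {x | L < q x - a x}, Real.exp (a x) ∂μ ≤ η

/-- Domination of one quotient. -/
def St_ONE : Prop := ∀ (n : ℕ) (M : Mf n) [M.Cpt] (H T : M.Fam (Mat n)) (O : Set M.X)
  (g : M.X → ℂ), 0 < n → M.Kae H → M.Form T → Kx M H T → Tn M O g →
  Dom M H T O fun x => 1 + normSq (g x)

/-- The mean of the potentials. -/
def St_AVG : Prop := ∀ (n : ℕ) (M : Mf n) [M.Cpt] (H T : M.Fam (Mat n)) (O : Set M.X) (ι : Type)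
  [Fintype ι] [Nonempty ι] (f : ι → M.X → ℝ), M.Met H → (∀ i x, 0 ≤ f i x) →
  (∀ i, Dom M H T O fun x => 1 + f i x) → Dom M H T O fun x => 1 + ∑ i, f i x

/-- The form with sequences. -/
def St_SEQ : Prop := ∀ (n : ℕ) (M : Mf n) [M.Cpt] (H T : M.Fam (Mat n)) (O : Set M.X)
  (N p : M.X → ℝ), Continuous p → (∀ x, p x ≠ 0 ↔ x ∈ O) → Dom M H T O N →
  ∃ δ α C : ℝ, 0 < δ ∧ 0 < α ∧ ∃ u : ℕ → M.X → ℝ,
    (∀ i, M.Sm (u i) ∧ M.Le 0 (T + (1 / (i + 1 : ℝ)) • H + M.hs (u i)) ∧ (∀ x, u i x ≤ 0) ∧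
      ∫ x, Real.exp (α * -u i x) ∂M.mu H ≤ C) ∧
    ∀ K, IsCompact K → K ⊆ O → ∀ᶠ i in atTop, ∀ x ∈ K, u i x + δ * Real.log (N x) ≤ C

/-- Contravariant tensors with values in a power of the canonical bundle. -/
def St_PAI : Prop := ∀ (n : ℕ) (M : Mf n) [M.Cpt] (N B : ℕ)
  (s t : M.Fam ((Fin N → Fin n) → ℂ)) (O : Set M.X) (g : M.X → ℂ), N ≤ B →
  Tw M (fun e e' x => kp N (M.J e e' x)) B s → HLK.Hol t →
  (M.Ov fun e e' x => t e (e x) = ((M.J e e' x).det ^ B)⁻¹ • kp N (M.J e e' x) *ᵥ t e' (e' x)) →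
  (M.All fun e z => (e.symm z ∈ O ↔ s e z ≠ 0) ∧ (s e z ≠ 0 → t e z = g (e.symm z) • s e z)) →
  Tn M O g

/-- Domination. -/
def St_DOM : Prop := ∀ (n : ℕ) (M : Mf n) [M.Cpt] (I : Type) [Fintype I] (D : Dk M I)
  (O : Set M.X) (ι : Type) [Fintype ι] [Nonempty ι] (g : ι → M.X → ℂ), (∀ i, Tn M O (g i)) →
  Dom M D.H D.T O fun x => 1 + ∑ i, normSq (g i x)

theorem dom (hKX : St_KX) (hONE : St_ONE) (hAVG : St_AVG) : St_DOM := by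
  intro n M _ I _ D O ι _ _ g hg
  have hT : M.Form D.T := ((mHES n M).2.2.2.2.2.2.2.2.1 _ D.kae.toMet).toForm.neg.sub
    (Finset.sum_induction _ M.Form (fun _ _ => Mf.Form.add) Mf.form_zero fun k _ =>
      (D.wt k).clo.toForm.smul _)
  exact hAVG n M _ _ O ι _ D.kae.toMet (fun i x => normSq_nonneg _) fun i =>
    hONE n M _ _ O _ D.pos D.kae hT (hKX n M I D) (hg i)

end Pool.Agent.Lib.DK
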